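import Pool.Agent.MP_b74c76_co.Order

set_option autoImplicit false

/-!
# Asymptotics of the maximum order complexity
-/

namespace Pool.Agent.MP_b74c76_co

open Filter Topology

/-- The value of the quotient at the start of a block. -/
noncomputable def uu (m : ℕ) : ℝ := (KK m : ℝ) / ((Nat.fib m + Nat.fib (m + 2) + 1 : ℕ) : ℝ)

/-- The value of the quotient at the end of a block. -/
noncomputable def vv (m : ℕ) : ℝ := (KK m : ℝ) / ((Nat.fib (m + 1) + Nat.fib (m + 3) : ℕ) : ℝ)

theorem cube_aux (x : ℝ) (h : x ^ 2 = x + 1) : x ^ 3 = 2 * x + 1 := by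
  calc x ^ 3 = x * x ^ 2 := by ring
    _ = x * (x + 1) := by rw [h]
    _ = x ^ 2 + x := by ring
    _ = 2 * x + 1 := by rw [h]; ring

theorem tendsto_inv_fib : Tendsto (fun m : ℕ => 1 / (Nat.fib m : ℝ)) atTop (𝓝 0) := by
  have h1 : Tendsto (fun m : ℕ => (Nat.fib m : ℝ)) atTop atTop := by
    apply tendsto_atTop_mono (f := fun m : ℕ => (m : ℝ) - 1)
    · intro m
      have := Nat.le_fib_add_one m
      have h2 : (m : ℝ) ≤ Nat.fib m + 1 := by exact_mod_cast this
      linarith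
    · exact tendsto_atTop_add_const_right _ _ tendsto_natCast_atTop_atTop
  simp only [one_div]
  exact tendsto_inv_atTop_zero.comp h1

theorem tendsto_KK : Tendsto (fun m : ℕ => (KK m : ℝ) / Nat.fib m) atTop (𝓝 1) := by
  have h0 := tendsto_inv_fib
  have h1 : Tendsto (fun m : ℕ => 1 + 1 / (Nat.fib m : ℝ)) atTop (𝓝 (1 + 0)) :=
    tendsto_const_nhds.add h0
  have h2 : Tendsto (fun m : ℕ => 1 + 2 * (1 / (Nat.fib m : ℝ))) atTop (𝓝 (1 + 2 * 0)) :=
    tendsto_const_nhds.add (h0.const_mul 2)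
  rw [add_zero] at h1
  rw [mul_zero, add_zero] at h2
  refine tendsto_of_tendsto_of_tendsto_of_le_of_le' h1 h2 ?_ ?_
  · filter_upwards [eventually_ge_atTop 1] with m hm
    have hf : (0 : ℝ) < Nat.fib m := by exact_mod_cast Nat.fib_pos.2 hm
    rw [le_div_iff₀ hf]
    have : (1 + 1 / (Nat.fib m : ℝ)) * Nat.fib m = Nat.fib m + 1 := by field_simp
    rw [this]
    have hK : Nat.fib m + 1 ≤ KK m := by unfold KK; omega
    exact_mod_cast hK
  · filter_upwards [eventually_ge_atTop 1] with m hm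
    have hf : (0 : ℝ) < Nat.fib m := by exact_mod_cast Nat.fib_pos.2 hm
    rw [div_le_iff₀ hf]
    have : (1 + 2 * (1 / (Nat.fib m : ℝ))) * Nat.fib m = Nat.fib m + 2 := by field_simp
    rw [this]
    have hK : KK m ≤ Nat.fib m + 2 := by unfold KK; split <;> omega
    exact_mod_cast hK

theorem tendsto_uu : Tendsto uu atTop (𝓝 (1 / (1 + Real.goldenRatio ^ 2))) := by
  have h1 := tendsto_KK
  have h2 := tendsto_fib_succ_div_fib_atTop
  have h3 := tendsto_inv_fib
  have h4 : Tendsto (fun m : ℕ => ((KK m : ℝ) / Nat.fib m) /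
      (2 + (Nat.fib (m + 1) : ℝ) / Nat.fib m + 1 / (Nat.fib m : ℝ))) atTop
      (𝓝 (1 / (2 + Real.goldenRatio + 0))) := by
    refine h1.div ((tendsto_const_nhds.add h2).add h3) ?_
    have := Real.goldenRatio_pos
    positivity
  have h5 : 1 / (2 + Real.goldenRatio + 0) = 1 / (1 + Real.goldenRatio ^ 2) := by
    rw [Real.goldenRatio_sq]
    congr 1
    ring
  rw [h5] at h4
  refine h4.congr' ?_
  filter_upwards [eventually_ge_atTop 1] with m hm
  have hf : (0 : ℝ) < Nat.fib m := by exact_mod_cast Nat.fib_pos.2 hm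
  unfold uu
  have e : Nat.fib (m + 2) = Nat.fib m + Nat.fib (m + 1) := Nat.fib_add_two
  rw [e]
  push_cast
  have hf1 : (0 : ℝ) ≤ Nat.fib (m + 1) := Nat.cast_nonneg _
  field_simp
  ring

theorem tendsto_vv : Tendsto vv atTop (𝓝 (1 / (Real.goldenRatio + Real.goldenRatio ^ 3))) := by
  have h1 := tendsto_KK
  have h2 := tendsto_fib_succ_div_fib_atTop
  have h4 : Tendsto (fun m : ℕ => ((KK m : ℝ) / Nat.fib m) /
      (3 * ((Nat.fib (m + 1) : ℝ) / Nat.fib m) + 1)) atTop
      (𝓝 (1 / (3 * Real.goldenRatio + 1))) := by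
    refine h1.div ((h2.const_mul 3).add tendsto_const_nhds) ?_
    have := Real.goldenRatio_pos
    positivity
  have h5 : 1 / (3 * Real.goldenRatio + 1) =
      1 / (Real.goldenRatio + Real.goldenRatio ^ 3) := by
    have h6 := Real.goldenRatio_sq
    have h7 := cube_aux _ h6
    rw [h7]
    congr 1
    ring
  rw [h5] at h4
  refine h4.congr' ?_
  filter_upwards [eventually_ge_atTop 1] with m hm
  have hf : (0 : ℝ) < Nat.fib m := by exact_mod_cast Nat.fib_pos.2 hm
  unfold vv
  have e2 : Nat.fib (m + 2) = Nat.fib m + Nat.fib (m + 1) := Nat.fib_add_two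
  have e3 : Nat.fib (m + 3) = Nat.fib (m + 1) + Nat.fib (m + 2) := Nat.fib_add_two
  rw [e3, e2]
  push_cast
  have hf1 : (0 : ℝ) ≤ Nat.fib (m + 1) := Nat.cast_nonneg _
  field_simp
  ring

/-- The quotient. -/
noncomputable def aa (N : ℕ) : ℝ := (maxOrder sZ N : ℝ) / N

theorem maxOrder_le (s : ℕ → Bool) (N : ℕ) : maxOrder s N ≤ N := by
  apply Nat.sInf_le
  exact ⟨fun _ => false, fun i hi => absurd hi (by omega)⟩

theorem aa_nonneg (N : ℕ) : 0 ≤ aa N := by unfold aa; positivity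

theorem aa_le_one (N : ℕ) : aa N ≤ 1 := by
  unfold aa
  apply div_le_one_of_le₀
  · exact_mod_cast maxOrder_le sZ N
  · positivity

theorem aa_block {m N : ℕ} (hm : 2 ≤ m) (h1 : Nat.fib m + Nat.fib (m + 2) < N)
    (h2 : N ≤ Nat.fib (m + 1) + Nat.fib (m + 3)) : vv m ≤ aa N ∧ aa N ≤ uu m := by
  unfold aa vv uu
  rw [maxOrder_eq hm h1 h2]
  have hN : (0 : ℝ) < N := by exact_mod_cast (by omega : 0 < N)
  constructor
  · apply div_le_div_of_nonneg_left (by positivity) hN
    exact_mod_cast h2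
  · apply div_le_div_of_nonneg_left (by positivity) (by positivity)
    exact_mod_cast h1

theorem eventually_block {P : ℕ → Prop} (hP : ∀ᶠ m in atTop, P m) :
    ∀ᶠ N in atTop, ∃ m, 2 ≤ m ∧ P m ∧ Nat.fib m + Nat.fib (m + 2) < N ∧
      N ≤ Nat.fib (m + 1) + Nat.fib (m + 3) := by
  obtain ⟨M, hM⟩ := eventually_atTop.1 hP
  rw [eventually_atTop]
  refine ⟨5 + Nat.fib (M + 1) + Nat.fib (M + 3), fun N hN => ?_⟩
  obtain ⟨m, hm, h1, h2⟩ := exists_block (N := N) (by omega)
  refine ⟨m, hm, hM m ?_, h1, h2⟩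
  by_contra hlt
  push Not at hlt
  have e1 : Nat.fib (m + 1) ≤ Nat.fib (M + 1) := Nat.fib_mono (by omega)
  have e2 : Nat.fib (m + 3) ≤ Nat.fib (M + 3) := Nat.fib_mono (by omega)
  omega

theorem limsup_aa : limsup aa atTop = 1 / (1 + Real.goldenRatio ^ 2) := by
  have hb1 : IsBoundedUnder (· ≤ ·) atTop aa := isBoundedUnder_of ⟨1, aa_le_one⟩
  have hb2 : IsBoundedUnder (· ≥ ·) atTop aa := isBoundedUnder_of ⟨0, aa_nonneg⟩
  apply le_antisymm
  · apply le_of_forall_gt_imp_ge_of_dense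
    intro b hb
    apply limsup_le_of_le hb2.isCoboundedUnder_le
    have h := tendsto_uu.eventually (gt_mem_nhds hb)
    filter_upwards [eventually_block h] with N hN
    obtain ⟨m, hm, h1, h2, h3⟩ := hN
    exact ((aa_block hm h2 h3).2.trans_lt h1).le
  · apply le_of_forall_lt_imp_le_of_dense
    intro b hb
    apply le_limsup_of_frequently_le _ hb1
    have h := (tendsto_uu.eventually (lt_mem_nhds hb)).and (eventually_ge_atTop 2)
    obtain ⟨M, hM⟩ := eventually_atTop.1 h
    rw [frequently_atTop]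
    intro n
    obtain ⟨h1, h2⟩ := hM (M + n + 2) (by omega)
    have hlt : Nat.fib (M + n + 2) + Nat.fib (M + n + 2 + 2) <
        Nat.fib (M + n + 2 + 1) + Nat.fib (M + n + 2 + 3) := by
      have e1 : Nat.fib (M + n + 2) < Nat.fib (M + n + 2 + 1) := Nat.fib_lt_fib_succ (by omega)
      have e2 : Nat.fib (M + n + 2 + 2) < Nat.fib (M + n + 2 + 3) :=
        Nat.fib_lt_fib_succ (by omega)
      omega
    refine ⟨Nat.fib (M + n + 2) + Nat.fib (M + n + 2 + 2) + 1, ?_, ?_⟩
    · have e3 := Nat.le_fib_add_one (M + n + 2)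
      have e4 := Nat.le_fib_add_one (M + n + 2 + 2)
      omega
    · unfold aa
      rw [maxOrder_eq h2 (by omega) (by omega)]
      exact h1.le

theorem liminf_aa : liminf aa atTop = 1 / (Real.goldenRatio + Real.goldenRatio ^ 3) := by
  have hb1 : IsBoundedUnder (· ≤ ·) atTop aa := isBoundedUnder_of ⟨1, aa_le_one⟩
  have hb2 : IsBoundedUnder (· ≥ ·) atTop aa := isBoundedUnder_of ⟨0, aa_nonneg⟩
  apply le_antisymm
  · apply le_of_forall_gt_imp_ge_of_dense
    intro b hb
    apply liminf_le_of_frequently_le _ hb2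
    have h := (tendsto_vv.eventually (gt_mem_nhds hb)).and (eventually_ge_atTop 2)
    obtain ⟨M, hM⟩ := eventually_atTop.1 h
    rw [frequently_atTop]
    intro n
    obtain ⟨h1, h2⟩ := hM (M + n + 2) (by omega)
    have hlt : Nat.fib (M + n + 2) + Nat.fib (M + n + 2 + 2) <
        Nat.fib (M + n + 2 + 1) + Nat.fib (M + n + 2 + 3) := by
      have e1 : Nat.fib (M + n + 2) < Nat.fib (M + n + 2 + 1) := Nat.fib_lt_fib_succ (by omega)
      have e2 : Nat.fib (M + n + 2 + 2) < Nat.fib (M + n + 2 + 3) :=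
        Nat.fib_lt_fib_succ (by omega)
      omega
    refine ⟨Nat.fib (M + n + 2 + 1) + Nat.fib (M + n + 2 + 3), ?_, ?_⟩
    · have e3 := Nat.le_fib_add_one (M + n + 2 + 1)
      have e4 := Nat.le_fib_add_one (M + n + 2 + 3)
      omega
    · unfold aa
      rw [maxOrder_eq h2 hlt le_rfl]
      exact h1.le
  · apply le_of_forall_lt_imp_le_of_dense
    intro b hb
    apply le_liminf_of_le hb1.isCoboundedUnder_ge
    have h := tendsto_vv.eventually (lt_mem_nhds hb)
    filter_upwards [eventually_block h] with N hN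
    obtain ⟨m, hm, h1, h2, h3⟩ := hN
    exact (h1.trans_le (aa_block hm h2 h3).1).le

theorem not_tendsto_aa : ¬ ∃ l : ℝ, Tendsto aa atTop (𝓝 l) := by
  rintro ⟨l, hl⟩
  have h1 := hl.limsup_eq
  have h2 := hl.liminf_eq
  rw [limsup_aa] at h1
  rw [liminf_aa] at h2
  have h3 := h1.trans h2.symm
  have hpos := Real.goldenRatio_pos
  have h4 : 1 + Real.goldenRatio ^ 2 = Real.goldenRatio + Real.goldenRatio ^ 3 := by
    have := congrArg (fun x : ℝ => 1 / x) h3
    simpa using this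
  have h5 := Real.goldenRatio_sq
  have h7 := cube_aux _ h5
  rw [h5, h7] at h4
  have := Real.one_lt_goldenRatio
  linarith

end Pool.Agent.MP_b74c76_co
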