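import Mathlib

set_option autoImplicit false

/-!
# The Zeckendorf parity sequence: basic recursions

`sZ n` is the parity of the number of summands in the Zeckendorf representation of `n`,
`lZ n` is its last digit (the digit of `F_2 = 1`), `pZ n` is the number obtained by appending a
digit `0`.
-/

namespace Pool.Agent.MP_b74c76_co

open Nat

/-- The Zeckendorf parity sequence: the parity of the number of summands of the Zeckendorf
representation of `n` (`true` stands for `1`). -/
def sZ (n : ℕ) : Bool := decide ((Nat.zeckendorf n).length % 2 = 1)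

/-- The last Zeckendorf digit. -/
def lZ (n : ℕ) : Bool := decide (2 ∈ Nat.zeckendorf n)

/-- Append a digit `0` to the Zeckendorf representation. -/
def pZ (n : ℕ) : ℕ := ((Nat.zeckendorf n).map fun a => Nat.fib (a + 1)).sum

theorem zeck_add {b m : ℕ} (hb : 1 ≤ b) (hm : m < fib b) :
    zeckendorf (fib (b + 1) + m) = (b + 1) :: zeckendorf m := by
  have hpos : 0 < fib (b + 1) := fib_pos.2 (by omega)
  have hg : greatestFib (fib (b + 1) + m) = b + 1 := by
    apply le_antisymm
    · apply Nat.lt_succ_iff.1
      rw [greatestFib_lt, show (b + 1).succ = b + 2 from rfl, fib_add_two]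
      omega
    · rw [le_greatestFib]
      omega
  rw [zeckendorf_of_pos (by omega), hg, Nat.add_sub_cancel_left]

theorem exists_rep {n : ℕ} (hn : 0 < n) :
    ∃ b m, 1 ≤ b ∧ m < fib b ∧ n = fib (b + 1) + m := by
  have h1 : 2 ≤ greatestFib n := by
    rw [le_greatestFib, fib_two]
    exact hn
  have h2 := fib_greatestFib_le n
  have h3 := lt_fib_greatestFib_add_one n
  refine ⟨greatestFib n - 1, n - fib (greatestFib n), by omega, ?_, ?_⟩
  · have h4 : greatestFib n = (greatestFib n - 1) + 1 := by omega
    have h5 : fib (greatestFib n + 1) = fib (greatestFib n - 1) + fib (greatestFib n) := by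
      conv_lhs => rw [h4]
      rw [fib_add_two, ← h4]
    omega
  · rw [Nat.sub_add_cancel (by omega)]
    omega

theorem zrec {P : ℕ → Prop} (h0 : P 0)
    (hs : ∀ b m, 1 ≤ b → m < fib b → P m → P (fib (b + 1) + m)) (n : ℕ) : P n := by
  induction n using Nat.strong_induction_on with
  | _ n ih =>
    rcases Nat.eq_zero_or_pos n with h | h
    · rw [h]; exact h0
    · obtain ⟨b, m, hb, hm, rfl⟩ := exists_rep h
      have : 0 < fib (b + 1) := fib_pos.2 (by omega)
      exact hs b m hb hm (ih m (by omega))

theorem s_zero : sZ 0 = false := by simp [sZ]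

theorem l_zero : lZ 0 = false := by simp [lZ]

theorem p_zero : pZ 0 = 0 := by simp [pZ]

theorem s_add {b m : ℕ} (hb : 1 ≤ b) (hm : m < fib b) : sZ (fib (b + 1) + m) = !sZ m := by
  simp only [sZ]
  rw [zeck_add hb hm, List.length_cons]
  by_cases h : (zeckendorf m).length % 2 = 1
  · have h' : ¬ ((zeckendorf m).length + 1) % 2 = 1 := by omega
    rw [decide_eq_true h, decide_eq_false h']
    rfl
  · have h' : ((zeckendorf m).length + 1) % 2 = 1 := by omega
    rw [decide_eq_false h, decide_eq_true h']
    rfl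

theorem l_add {b m : ℕ} (hb : 1 ≤ b) (hm : m < fib b) :
    lZ (fib (b + 1) + m) = (decide (b = 1) || lZ m) := by
  simp only [lZ]
  rw [zeck_add hb hm, ← Bool.decide_or, decide_eq_decide, List.mem_cons]
  constructor
  · rintro (h | h)
    · left; omega
    · right; exact h
  · rintro (h | h)
    · left; omega
    · right; exact h

theorem p_add {b m : ℕ} (hb : 1 ≤ b) (hm : m < fib b) :
    pZ (fib (b + 1) + m) = fib (b + 2) + pZ m := by
  simp only [pZ]
  rw [zeck_add hb hm, List.map_cons, List.sum_cons]

theorem p_fib {b : ℕ} (hb : 1 ≤ b) : pZ (fib (b + 1)) = fib (b + 2) := by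
  have := p_add hb (m := 0) (fib_pos.2 (by omega))
  rw [p_zero] at this
  simpa using this

theorem s_fib {b : ℕ} (hb : 1 ≤ b) : sZ (fib (b + 1)) = true := by
  have := s_add hb (m := 0) (fib_pos.2 (by omega))
  rw [s_zero] at this
  simpa using this

theorem s_one : sZ 1 = true := s_fib (b := 1) le_rfl

theorem l_one : lZ 1 = true := by
  have := l_add (b := 1) (m := 0) le_rfl (by norm_num)
  simpa using this

/-- The step of `pZ` is `1` after a digit `1` and `2` after a digit `0`. -/
theorem p_succ (n : ℕ) : pZ (n + 1) = pZ n + (if lZ n then 1 else 2) := by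
  induction n using zrec with
  | h0 =>
    rw [p_zero, l_zero]
    exact p_fib (b := 1) le_rfl
  | hs b m hb hm ih =>
    rcases Nat.eq_or_lt_of_le hb with h1 | h1
    · subst h1
      have hm0 : m = 0 := by simp at hm; exact hm
      subst hm0
      have e1 : pZ 2 = 3 := p_fib (b := 2) (by omega)
      have e2 : pZ 1 = 2 := p_fib (b := 1) (by omega)
      have e3 : fib (1 + 1) + 0 = 1 := rfl
      rw [e3, e1, e2, l_one]
      rfl
    · have hl : lZ (fib (b + 1) + m) = lZ m := by
        rw [l_add hb hm, decide_eq_false (by omega), Bool.false_or]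
      rw [hl, p_add hb hm]
      rcases Nat.lt_or_ge (m + 1) (fib b) with h2 | h2
      · rw [Nat.add_assoc, p_add hb h2, ih]
        omega
      · have h3 : m + 1 = fib b := by omega
        have h4 : pZ (m + 1) = fib (b + 1) := by
          rw [h3]
          obtain ⟨c, rfl⟩ : ∃ c, b = c + 1 := ⟨b - 1, by omega⟩
          exact p_fib (by omega)
        rw [Nat.add_assoc, h3, Nat.add_comm (fib (b + 1)) (fib b), ← fib_add_two,
          p_fib (b := b + 1) (by omega)]
        rw [h4] at ih
        have h5 : fib (b + 1 + 2) = fib (b + 1) + fib (b + 2) := fib_add_two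
        omega

theorem p_strictMono : StrictMono pZ := by
  apply strictMono_nat_of_lt_succ
  intro n
  rw [p_succ]
  split <;> omega

theorem p_lt_of_lt_fib {b m : ℕ} (hb : 1 ≤ b) (hm : m < fib b) : pZ m < fib (b + 1) := by
  rcases Nat.eq_or_lt_of_le hb with h1 | h1
  · subst h1
    have hm0 : m = 0 := by simp at hm; exact hm
    subst hm0
    rw [p_zero]
    exact fib_pos.2 (by omega)
  · obtain ⟨c, rfl⟩ : ∃ c, b = c + 1 := ⟨b - 1, by omega⟩
    rw [← p_fib (b := c) (by omega)]
    exact p_strictMono hm

theorem x_p (n : ℕ) : sZ (pZ n) = sZ n ∧ lZ (pZ n) = false ∧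
    (lZ n = false → sZ (pZ n + 1) = !sZ n ∧ lZ (pZ n + 1) = true) := by
  induction n using zrec with
  | h0 =>
    rw [p_zero]
    refine ⟨rfl, l_zero, fun _ => ⟨?_, l_one⟩⟩
    rw [s_zero]
    exact s_one
  | hs b m hb hm ih =>
    obtain ⟨ih1, ih2, ih3⟩ := ih
    have hlt := p_lt_of_lt_fib hb hm
    rw [p_add hb hm]
    refine ⟨?_, ?_, ?_⟩
    · rw [s_add (b := b + 1) (by omega) hlt, s_add hb hm, ih1]
    · rw [l_add (b := b + 1) (by omega) hlt, ih2, decide_eq_false (by omega)]
      rfl
    · intro hl
      rw [l_add hb hm, Bool.or_eq_false_iff] at hl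
      obtain ⟨hb1, hlm⟩ := hl
      have hb1' : b ≠ 1 := by simpa using hb1
      obtain ⟨h1, h2⟩ := ih3 hlm
      have hlt2 : pZ m + 1 < fib (b + 1) := by
        have h3 := p_succ m
        rw [hlm] at h3
        have h4 : pZ (m + 1) ≤ fib (b + 1) := by
          obtain ⟨c, rfl⟩ : ∃ c, b = c + 1 := ⟨b - 1, by omega⟩
          rw [← p_fib (b := c) (by omega)]
          exact p_strictMono.monotone hm
        simp at h3
        omega
      rw [Nat.add_assoc]
      refine ⟨?_, ?_⟩
      · rw [s_add (b := b + 1) (by omega) hlt2, s_add hb hm, h1]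
      · rw [l_add (b := b + 1) (by omega) hlt2, h2, Bool.or_true]

theorem p_surj (m : ℕ) : ∃ n, m = pZ n ∨ (lZ n = false ∧ m = pZ n + 1) := by
  induction m with
  | zero => exact ⟨0, Or.inl p_zero.symm⟩
  | succ m ih =>
    obtain ⟨n, h | ⟨h1, h2⟩⟩ := ih
    · by_cases hl : lZ n = false
      · exact ⟨n, Or.inr ⟨hl, by rw [h]⟩⟩
      · have hl' : lZ n = true := by simpa using hl
        refine ⟨n + 1, Or.inl ?_⟩
        rw [p_succ, hl', h]
        simp
    · refine ⟨n + 1, Or.inl ?_⟩
      rw [p_succ, h1, h2]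
      simp

end Pool.Agent.MP_b74c76_co
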