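import Pool.Agent.MP_b74c76_co.Events

set_option autoImplicit false

/-!
# Classification of the longest repeats of the letter sequence
-/

namespace Pool.Agent.MP_b74c76_co

open Nat

theorem gr_pos : (0 : ℝ) < -Real.goldenConj := by
  have := Real.goldenConj_neg
  linarith

theorem gr_lt_one : -Real.goldenConj < (1 : ℝ) := by
  have := Real.neg_one_lt_goldenConj
  linarith

theorem p_err (n : ℕ) : ∀ b : ℕ, 1 ≤ b → n < fib b →
    |(pZ n : ℝ) - Real.goldenRatio * n| ≤ -Real.goldenConj - (-Real.goldenConj) ^ b := by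
  induction n using zrec with
  | h0 =>
    intro b hb _
    rw [p_zero]
    have h1 := pow_le_of_le_one gr_pos.le gr_lt_one.le (n := b) (by omega)
    simp only [Nat.cast_zero, mul_zero, sub_self, abs_zero]
    linarith
  | hs c m hc hm ih =>
    intro b hb hn
    have hcb : c + 2 ≤ b := by
      by_contra hcon
      have : fib b ≤ fib (c + 1) := fib_mono (by omega)
      omega
    have h1 := ih c hc hm
    rw [p_add hc hm]
    have h2 := Real.fib_succ_sub_goldenRatio_mul_fib (c + 1)
    have h3 : ((fib (c + 2) + pZ m : ℕ) : ℝ) - Real.goldenRatio * ((fib (c + 1) + m : ℕ) : ℝ) =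
        Real.goldenConj ^ (c + 1) + ((pZ m : ℝ) - Real.goldenRatio * m) := by
      push_cast
      rw [← h2]
      ring
    rw [h3]
    have h4 : |Real.goldenConj ^ (c + 1)| = (-Real.goldenConj) ^ (c + 1) := by
      rw [abs_pow, abs_of_neg Real.goldenConj_neg]
    have h5 : (-Real.goldenConj) ^ b ≤ (-Real.goldenConj) ^ (c + 2) :=
      pow_le_pow_of_le_one gr_pos.le gr_lt_one.le hcb
    have h6 : (-Real.goldenConj) ^ (c + 2) + (-Real.goldenConj) ^ (c + 1) =
        (-Real.goldenConj) ^ c := by
      have := Real.goldenConj_sq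
      calc (-Real.goldenConj) ^ (c + 2) + (-Real.goldenConj) ^ (c + 1)
          = (-Real.goldenConj) ^ c * (Real.goldenConj ^ 2 - Real.goldenConj) := by ring
        _ = (-Real.goldenConj) ^ c := by rw [this]; ring
    calc |Real.goldenConj ^ (c + 1) + ((pZ m : ℝ) - Real.goldenRatio * m)|
        ≤ |Real.goldenConj ^ (c + 1)| + |(pZ m : ℝ) - Real.goldenRatio * m| := abs_add_le _ _
      _ ≤ (-Real.goldenConj) ^ (c + 1) + (-Real.goldenConj - (-Real.goldenConj) ^ c) := by
          rw [h4]; linarith
      _ ≤ -Real.goldenConj - (-Real.goldenConj) ^ b := by linarith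

theorem p_err_one (n : ℕ) : |(pZ n : ℝ) - Real.goldenRatio * n| ≤ 1 := by
  have h := p_err n (greatestFib n + 1) (by omega) (lt_fib_greatestFib_add_one n)
  have h1 : 0 ≤ (-Real.goldenConj) ^ (greatestFib n + 1) := pow_nonneg gr_pos.le _
  have h2 := gr_lt_one
  linarith

theorem p_diff (i k : ℕ) : (pZ (i + k) : ℝ) - pZ i ≤ Real.goldenRatio * k + 2 := by
  have h1 := abs_le.1 (p_err_one (i + k))
  have h2 := abs_le.1 (p_err_one i)
  push_cast at h1
  nlinarith [h1.2, h2.1]

/-- The threshold for the non-critical repeats. -/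
noncomputable def TT (m : ℕ) : ℝ := 48 / 125 * Real.goldenRatio ^ m - 5

theorem gr_lower : (1.618 : ℝ) < Real.goldenRatio := by
  unfold Real.goldenRatio
  have : (2.236 : ℝ) < √5 := by
    apply Real.lt_sqrt_of_sq_lt
    norm_num
  linarith

theorem gr_upper : Real.goldenRatio < (1.6181 : ℝ) := by
  unfold Real.goldenRatio
  have : √5 < (2.2362 : ℝ) := by
    rw [Real.sqrt_lt' (by norm_num)]
    norm_num
  linarith

theorem pow_eight : Real.goldenRatio ^ 8 = 21 * Real.goldenRatio + 13 := by
  have h := Real.goldenRatio_sq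
  have h4 : Real.goldenRatio ^ 4 = 3 * Real.goldenRatio + 2 := by
    calc Real.goldenRatio ^ 4 = (Real.goldenRatio ^ 2) ^ 2 := by ring
      _ = (Real.goldenRatio + 1) ^ 2 := by rw [h]
      _ = Real.goldenRatio ^ 2 + 2 * Real.goldenRatio + 1 := by ring
      _ = 3 * Real.goldenRatio + 2 := by rw [h]; ring
  calc Real.goldenRatio ^ 8 = (Real.goldenRatio ^ 4) ^ 2 := by ring
    _ = (3 * Real.goldenRatio + 2) ^ 2 := by rw [h4]
    _ = 9 * Real.goldenRatio ^ 2 + 12 * Real.goldenRatio + 4 := by ring
    _ = 21 * Real.goldenRatio + 13 := by rw [h]; ring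

theorem TT_eight : (13 : ℝ) ≤ TT 8 := by
  unfold TT
  rw [pow_eight]
  have := gr_lower
  linarith

theorem TT_succ (m : ℕ) : Real.goldenRatio * TT m + 3 ≤ TT (m + 1) := by
  unfold TT
  have := gr_lower
  have h : Real.goldenRatio ^ (m + 1) = Real.goldenRatio * Real.goldenRatio ^ m := by ring
  rw [h]
  nlinarith

theorem TT_nonneg {m : ℕ} (hm : 8 ≤ m) : 13 ≤ TT m := by
  induction m, hm using Nat.le_induction with
  | base => exact TT_eight
  | succ m _ ih =>
    have h1 := TT_succ m
    have h2 := gr_lower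
    nlinarith

theorem p_L {m : ℕ} (hm : 1 ≤ m) :
    pZ (fib (m + 1) + fib (m + 3)) = fib (m + 2) + fib (m + 4) := by
  have h1 : fib (m + 1) < fib (m + 2) := fib_lt_fib_succ (by omega)
  have h2 := p_add (b := m + 2) (m := fib (m + 1)) (by omega) h1
  rw [Nat.add_comm (fib (m + 1)), h2, p_fib (b := m) (by omega)]
  exact Nat.add_comm _ _

/-- Every maximal repeat ending before `L_(m+2)` is critical or short. -/
def HH (m : ℕ) : Prop := ∀ i j k : ℕ, i < j → win i k = win j k → xZ (i + k) ≠ xZ (j + k) →
  LM i j → j + k < fib (m + 1) + fib (m + 3) → Crit m i j k ∨ (k : ℝ) ≤ TT m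

theorem base8 : HH 8 := by
  intro i j k hij hw hne hlm hlt
  have hlt' : j + k < 123 := by
    have e1 : fib (8 + 1) = 34 := by decide
    have e2 : fib (8 + 3) = 89 := by decide
    omega
  rw [win_eq_iff] at hw
  obtain ⟨d, hd⟩ : ∃ d, j = i + d := ⟨j - i, by omega⟩
  have hd1 : 1 ≤ d := by omega
  have hs := scan8
  rw [List.all_eq_true] at hs
  have hs2 := hs (d - 1) (by rw [List.mem_range]; omega)
  rw [show d - 1 + 1 = d by omega, W144_eq, win_take _ _ _ (by omega),
    win_drop _ _ _ (by omega), ← gw_x, ← gw_x] at hs2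
  have key := scan_spec xZ (ok8 d) d d (123 - d) 0 0 le_rfl (fun t h1 h2 => by omega)
    (Or.inl rfl) (by rw [show 123 - d + d = 123 by omega]; exact hs2) i k (by
      rcases hlm with h | h
      · exact Or.inl h
      · by_cases h0 : i = 0
        · exact Or.inl h0
        · right
          rw [hd, show i + d - 1 = i - 1 + d by omega] at h
          exact h) (by
      intro t ht
      have := hw t ht
      rw [hd, show i + d + t = i + t + d by omega] at this
      exact this) (by
      rw [hd, show i + d + k = i + k + d by omega] at hne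
      exact hne) (Nat.zero_le _) (by omega)
  unfold ok8 at key
  simp only [Bool.or_eq_true, Bool.and_eq_true, decide_eq_true_eq] at key
  rcases key with h | ⟨hk, h⟩
  · right
    have h1 : (k : ℝ) ≤ 13 := by exact_mod_cast h
    exact le_trans h1 TT_eight
  · left
    have e0 : fib 8 = 21 := by decide
    have e1 : fib (8 + 1) = 34 := by decide
    have e2 : fib (8 + 2) = 55 := by decide
    have e3 : fib (8 + 3) = 89 := by decide
    refine ⟨by rw [e0]; exact hk, ?_⟩
    rw [e0, e1, e2, e3]
    omega

theorem s_crit1 {m : ℕ} (hm : 2 ≤ m) : sZ (fib (m + 2) + fib m) = false := by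
  have h1 : fib m < fib (m + 1) := fib_lt_fib_succ (by omega)
  rw [s_add (b := m + 1) (by omega) h1]
  have := s_fib (b := m - 1) (by omega)
  rw [show m - 1 + 1 = m by omega] at this
  rw [this]
  rfl

theorem s_crit2 {m : ℕ} (hm : 2 ≤ m) : sZ (fib (m + 3) + fib m) = false := by
  have h1 : fib m < fib (m + 2) := lt_of_lt_of_le (fib_lt_fib_succ (by omega)) (fib_mono (by omega))
  rw [s_add (b := m + 2) (by omega) h1]
  have := s_fib (b := m - 1) (by omega)
  rw [show m - 1 + 1 = m by omega] at this
  rw [this]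
  rfl

theorem s_crit3 {m : ℕ} (hm : 4 ≤ m) : sZ (fib m + fib (m + 2) + fib m) = false := by
  obtain ⟨c, rfl⟩ : ∃ c, m = c + 2 := ⟨m - 2, by omega⟩
  have e1 : fib (c + 2) = fib c + fib (c + 1) := fib_add_two
  have e2 : fib (c + 3) = fib (c + 1) + fib (c + 2) := fib_add_two
  have e3 : fib (c + 4) = fib (c + 2) + fib (c + 3) := fib_add_two
  have e4 : fib (c + 5) = fib (c + 3) + fib (c + 4) := fib_add_two
  have h1 : fib (c + 2) + fib (c + 2 + 2) + fib (c + 2) = fib (c + 4 + 1) + fib c := by
    rw [show c + 2 + 2 = c + 4 by omega, show c + 4 + 1 = c + 5 by omega]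
    omega
  have h2 : fib c < fib (c + 4) := lt_of_lt_of_le (fib_lt_fib_succ (by omega)) (fib_mono (by omega))
  rw [h1, s_add (b := c + 4) (by omega) h2]
  have := s_fib (b := c - 1) (by omega)
  rw [show c - 1 + 1 = c by omega] at this
  rw [this]
  rfl

theorem step {m : ℕ} (hm : 8 ≤ m) (H : HH m) : HH (m + 1) := by
  intro i j k hij hw hne hlm hlt
  have hTT := TT_nonneg (m := m + 1) (by omega)
  rcases Nat.eq_zero_or_pos k with hk | hk
  · right
    subst hk
    simp only [Nat.cast_zero]
    linarith
  obtain ⟨i', j', k', hi, hj, hij', hw', hne', hlm', h1, h2⟩ := descend hij hw hne hlm hk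
  have hq : j' + k' < fib (m + 1) + fib (m + 3) := by
    have h3 : pZ (j' + k') < pZ (fib (m + 1) + fib (m + 3)) := by
      rw [p_L (by omega)]
      have h4 : fib (m + 1 + 1) + fib (m + 1 + 3) = fib (m + 2) + fib (m + 4) := rfl
      omega
    exact p_strictMono.lt_iff_lt.1 h3
  rcases H i' j' k' hij' hw' hne' hlm' hq with hc | hc
  · left
    obtain ⟨hk', hc⟩ := hc
    have hs_m : sZ (fib m) = true := by
      have := s_fib (b := m - 1) (by omega)
      rw [show m - 1 + 1 = m by omega] at this
      exact this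
    have hs_m2 : sZ (fib (m + 2)) = true := s_fib (b := m + 1) (by omega)
    have p1 : pZ (fib (m + 1)) = fib (m + 2) := p_fib (b := m) (by omega)
    have p2 : pZ (fib (m + 2)) = fib (m + 3) := p_fib (b := m + 1) (by omega)
    have p3 : pZ (fib (m + 3)) = fib (m + 4) := p_fib (b := m + 2) (by omega)
    have p0 : pZ (fib m) = fib (m + 1) := by
      have := p_fib (b := m - 1) (by omega)
      rw [show m - 1 + 1 = m by omega, show m - 1 + 2 = m + 1 by omega] at this
      exact this
    have f2 : fib (m + 2) = fib m + fib (m + 1) := fib_add_two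
    have f3 : fib (m + 3) = fib (m + 1) + fib (m + 2) := fib_add_two
    rcases hc with ⟨ci, cj⟩ | ⟨ci, cj⟩ | ⟨ci, cj⟩
    · have e1 : i' + k' = fib (m + 2) := by rw [ci, hk', f2]; omega
      have e2 : j' + k' = fib (m + 2) + fib m := by rw [cj, hk']
      have e3 : eps (i' + k') (j' + k') = 0 := by
        unfold eps
        rw [e1, e2, hs_m2, s_crit1 (by omega)]
        rfl
      rw [e3, e1, p2] at h1
      rw [ci, p1] at hi
      rw [cj, p2] at hj
      refine ⟨by show k = fib (m + 1); omega, Or.inl ⟨hi, hj⟩⟩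
    · have e1 : i' + k' = fib (m + 2) := by rw [ci, hk', f2]; omega
      have e2 : j' + k' = fib (m + 3) + fib m := by rw [cj, hk']
      have e3 : eps (i' + k') (j' + k') = 0 := by
        unfold eps
        rw [e1, e2, hs_m2, s_crit2 (by omega)]
        rfl
      rw [e3, e1, p2] at h1
      rw [ci, p1] at hi
      rw [cj, p3] at hj
      refine ⟨by show k = fib (m + 1); omega, Or.inr (Or.inl ⟨hi, hj⟩)⟩
    · have e1 : i' + k' = fib m := by rw [ci, hk']; omega
      have e2 : j' + k' = fib m + fib (m + 2) + fib m := by rw [cj, hk']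
      have e3 : eps (i' + k') (j' + k') = 0 := by
        unfold eps
        rw [e1, e2, hs_m, s_crit3 (by omega)]
        rfl
      rw [e3, e1, p0] at h1
      rw [ci, p_zero] at hi
      have hlt2 : fib m < fib (m + 1) := fib_lt_fib_succ (by omega)
      have p4 := p_add (b := m + 1) (m := fib m) (by omega) hlt2
      rw [cj, Nat.add_comm (fib m), p4, p0] at hj
      refine ⟨by show k = fib (m + 1); omega, Or.inr (Or.inr ⟨hi, ?_⟩)⟩
      rw [hj]
      exact Nat.add_comm _ _
  · right
    have h5 := eps_le (i' + k') (j' + k')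
    have h6 := p_diff i' k'
    have h7 := TT_succ m
    have h8 : (k : ℝ) ≤ ((pZ (i' + k') : ℝ) - pZ i') + 1 := by
      have h9 : k + pZ i' ≤ pZ (i' + k') + 1 := by omega
      have h10 : (k : ℝ) + pZ i' ≤ pZ (i' + k') + 1 := by exact_mod_cast h9
      linarith
    have h11 : Real.goldenRatio * k' ≤ Real.goldenRatio * TT m :=
      mul_le_mul_of_nonneg_left hc Real.goldenRatio_pos.le
    linarith

theorem classify {m : ℕ} (hm : 8 ≤ m) : HH m := by
  induction m, hm using Nat.le_induction with
  | base => exact base8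
  | succ m hm ih => exact step hm ih

end Pool.Agent.MP_b74c76_co
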