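import Pool.Agent.MP_b74c76_co.Scan

set_option autoImplicit false

/-!
# Descent of maximal repeats, and the classification of the longest ones
-/

namespace Pool.Agent.MP_b74c76_co

open Nat

theorem win_eq_iff (i j k : ℕ) : win i k = win j k ↔ ∀ t < k, xZ (i + t) = xZ (j + t) := by
  induction k generalizing i j with
  | zero => simp [win]
  | succ k ih =>
    simp only [win, List.cons.injEq, ih]
    constructor
    · rintro ⟨h0, h1⟩ t ht
      rcases Nat.eq_zero_or_pos t with h | h
      · subst h; exact h0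
      · have := h1 (t - 1) (by omega)
        rw [show i + 1 + (t - 1) = i + t by omega, show j + 1 + (t - 1) = j + t by omega] at this
        exact this
    · intro h
      refine ⟨h 0 (by omega), fun t ht => ?_⟩
      have := h (t + 1) (by omega)
      rw [show i + (t + 1) = i + 1 + t by omega, show j + (t + 1) = j + 1 + t by omega] at this
      exact this

/-- Ascent of repeats. -/
theorem asc {i j r : ℕ} (h : win i r = win j r) :
    pZ (i + r) - pZ i = pZ (j + r) - pZ j ∧
    win (pZ i) (pZ (i + r) - pZ i) = win (pZ j) (pZ (i + r) - pZ i) := by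
  have h1 := image i r
  have h2 := image j r
  rw [h] at h1
  rw [h1] at h2
  have h3 : pZ (i + r) - pZ i = pZ (j + r) - pZ j := by
    have := congrArg List.length h2
    rwa [win_length, win_length] at this
  refine ⟨h3, ?_⟩
  rw [h2, ← h3]

/-- The extra length at a mismatch. -/
def eps (u v : ℕ) : ℕ := if sZ u = sZ v then 1 else 0

theorem eps_le (u v : ℕ) : eps u v ≤ 1 := by
  unfold eps; split <;> omega

theorem mismatch {u v : ℕ} (h : xZ u ≠ xZ v) :
    (∀ t < eps u v, xZ (pZ u + t) = xZ (pZ v + t)) ∧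
      xZ (pZ u + eps u v) ≠ xZ (pZ v + eps u v) := by
  obtain ⟨u1, u2, u3⟩ := x_p u
  obtain ⟨v1, v2, v3⟩ := x_p v
  rw [ne_eq, x_eq_iff] at h
  unfold eps
  by_cases hs : sZ u = sZ v
  · rw [if_pos hs]
    refine ⟨?_, ?_⟩
    · intro t ht
      have : t = 0 := by omega
      subst this
      rw [x_eq_iff, Nat.add_zero, Nat.add_zero, u1, v1, u2, v2]
      exact ⟨hs, rfl⟩
    · rw [ne_eq, x_eq_iff]
      rintro ⟨_, hl⟩
      have hne : lZ u ≠ lZ v := fun hl' => h ⟨hs, hl'⟩
      cases hu : lZ u with
      | false =>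
        cases hv : lZ v with
        | false => rw [hu, hv] at hne; exact hne rfl
        | true =>
          have e1 := (u3 hu).2
          have e2 := (x_p (v + 1)).2.1
          rw [p_succ, hv, if_pos rfl] at e2
          rw [e1, e2] at hl
          exact absurd hl (by decide)
      | true =>
        cases hv : lZ v with
        | true => rw [hu, hv] at hne; exact hne rfl
        | false =>
          have e1 := (v3 hv).2
          have e2 := (x_p (u + 1)).2.1
          rw [p_succ, hu, if_pos rfl] at e2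
          rw [e1, e2] at hl
          exact absurd hl (by decide)
  · rw [if_neg hs]
    refine ⟨fun t ht => absurd ht (by omega), ?_⟩
    rw [ne_eq, x_eq_iff, Nat.add_zero, Nat.add_zero, u1, v1]
    exact fun h => hs h.1

/-- Left-maximality. -/
def LM (i j : ℕ) : Prop := i = 0 ∨ xZ (i - 1) ≠ xZ (j - 1)

/-- A maximal repeat starts at block boundaries. -/
theorem start {i j : ℕ} (hx : xZ i = xZ j) (hlm : LM i j) :
    ∃ i' j', i = pZ i' ∧ j = pZ j' := by
  rw [x_eq_iff] at hx
  obtain ⟨hs, hl⟩ := hx
  obtain ⟨n, hn | ⟨hn1, hn⟩⟩ := p_surj i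
  · obtain ⟨n', hn' | ⟨hn1', hn'⟩⟩ := p_surj j
    · exact ⟨n, n', hn, hn'⟩
    · exfalso
      rw [hn, hn', (x_p n).2.1, ((x_p n').2.2 hn1').2] at hl
      exact absurd hl (by decide)
  · obtain ⟨n', hn' | ⟨hn1', hn'⟩⟩ := p_surj j
    · exfalso
      rw [hn, hn', (x_p n').2.1, ((x_p n).2.2 hn1).2] at hl
      exact absurd hl (by decide)
    · exfalso
      rcases hlm with h | h
      · omega
      · apply h
        rw [hn, hn', Nat.add_sub_cancel, Nat.add_sub_cancel, x_eq_iff, (x_p n).1, (x_p n').1,
          (x_p n).2.1, (x_p n').2.1]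
        rw [hn, hn', ((x_p n).2.2 hn1).1, ((x_p n').2.2 hn1').1] at hs
        refine ⟨?_, rfl⟩
        cases h1 : sZ n <;> cases h2 : sZ n' <;> rw [h1, h2] at hs <;> first | rfl | (exact absurd hs (by decide))

theorem p_add_le (n k : ℕ) : pZ n + k ≤ pZ (n + k) := by
  induction k with
  | zero => simp
  | succ k ih =>
    have : pZ (n + k) < pZ (n + (k + 1)) := p_strictMono (by omega)
    omega

/-- Descent of maximal repeats. -/
theorem descend {i j k : ℕ} (hij : i < j) (hw : win i k = win j k)
    (hne : xZ (i + k) ≠ xZ (j + k)) (hlm : LM i j) (hk : 1 ≤ k) :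
    ∃ i' j' k', i = pZ i' ∧ j = pZ j' ∧ i' < j' ∧ win i' k' = win j' k' ∧
      xZ (i' + k') ≠ xZ (j' + k') ∧ LM i' j' ∧
      i + k = pZ (i' + k') + eps (i' + k') (j' + k') ∧
      j + k = pZ (j' + k') + eps (i' + k') (j' + k') := by
  rw [win_eq_iff] at hw
  obtain ⟨i', j', hi, hj⟩ := start (by simpa using hw 0 hk) hlm
  have hij' : i' < j' := by
    rw [hi, hj] at hij
    exact p_strictMono.lt_iff_lt.1 hij
  have hex : ∃ t, xZ (i' + t) ≠ xZ (j' + t) := by
    by_contra hcon
    push Not at hcon
    have h1 : win i' (k + 1) = win j' (k + 1) := (win_eq_iff _ _ _).2 fun t _ => hcon t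
    obtain ⟨_, h3⟩ := asc h1
    rw [win_eq_iff] at h3
    have h4 : pZ i' + (k + 1) ≤ pZ (i' + (k + 1)) := p_add_le i' (k + 1)
    have := h3 k (by omega)
    rw [← hi, ← hj] at this
    exact hne this
  classical
  obtain ⟨k', hk'ne, hk'min⟩ : ∃ k', xZ (i' + k') ≠ xZ (j' + k') ∧
      ∀ t < k', xZ (i' + t) = xZ (j' + t) := by
    refine ⟨Nat.find hex, Nat.find_spec hex, fun t ht => ?_⟩
    have := Nat.find_min hex ht
    simpa using this
  have hw' : win i' k' = win j' k' := (win_eq_iff _ _ _).2 hk'min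
  obtain ⟨a1, a2⟩ := asc hw'
  obtain ⟨m1, m2⟩ := mismatch hk'ne
  rw [win_eq_iff] at a2
  have b1 : pZ i' ≤ pZ (i' + k') := p_strictMono.monotone (by omega)
  have b2 : pZ j' ≤ pZ (j' + k') := p_strictMono.monotone (by omega)
  set ε := eps (i' + k') (j' + k') with hε
  set D := pZ (i' + k') - pZ i' with hD
  have c1 : pZ (i' + k') = i + D := by omega
  have c2 : pZ (j' + k') = j + D := by omega
  have hall : ∀ t < D + ε, xZ (i + t) = xZ (j + t) := by
    intro t ht
    rcases Nat.lt_or_ge t D with h | h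
    · rw [hi, hj]
      exact a2 t h
    · have := m1 (t - D) (by omega)
      rw [c1, c2, show i + D + (t - D) = i + t by omega,
        show j + D + (t - D) = j + t by omega] at this
      exact this
  have hmis : xZ (i + (D + ε)) ≠ xZ (j + (D + ε)) := by
    rw [c1, c2] at m2
    rw [← Nat.add_assoc, ← Nat.add_assoc]
    exact m2
  have hkD : k = D + ε := by
    rcases Nat.lt_trichotomy k (D + ε) with h | h | h
    · exact absurd (hall k h) hne
    · exact h
    · exact absurd (hw _ h) hmis
  refine ⟨i', j', k', hi, hj, hij', hw', hk'ne, ?_, by omega, by omega⟩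
  by_contra hcon
  unfold LM at hcon
  push Not at hcon
  obtain ⟨hi0, hxx⟩ := hcon
  have h1 : win (i' - 1) 1 = win (j' - 1) 1 := by
    rw [win_eq_iff]
    intro t ht
    have : t = 0 := by omega
    subst this
    exact hxx
  obtain ⟨d1, d2⟩ := asc h1
  rw [show i' - 1 + 1 = i' by omega] at d1 d2
  rw [show j' - 1 + 1 = j' by omega] at d1
  have e1 : pZ (i' - 1) < pZ i' := p_strictMono (by omega)
  have e2 : pZ (j' - 1) < pZ j' := p_strictMono (by omega)
  rw [win_eq_iff] at d2
  have := d2 (pZ i' - pZ (i' - 1) - 1) (by omega)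
  rw [show pZ (i' - 1) + (pZ i' - pZ (i' - 1) - 1) = i - 1 by omega,
    show pZ (j' - 1) + (pZ i' - pZ (i' - 1) - 1) = j - 1 by omega] at this
  rcases hlm with h | h
  · rw [h] at hi
    omega
  · exact h this

end Pool.Agent.MP_b74c76_co
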