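import Pool.Agent.MP_b74c76_co.Parity

set_option autoImplicit false

/-!
# The maximum order complexity of the Zeckendorf parity sequence
-/

namespace Pool.Agent.MP_b74c76_co

open Nat

/-- The first `N` terms of `s` are generated by a feedback shift register of length `k`:
`s (i + k) = f (s i, ..., s (i + k - 1))` whenever `i + k < N`. -/
def Generates (s : ℕ → Bool) (N k : ℕ) : Prop :=
  ∃ f : (Fin k → Bool) → Bool, ∀ i, i + k < N → s (i + k) = f (fun t => s (i + t))

/-- The `N`th maximum order complexity of `s`. -/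
noncomputable def maxOrder (s : ℕ → Bool) (N : ℕ) : ℕ := sInf {k | Generates s N k}

theorem generates_of {s : ℕ → Bool} {N k : ℕ}
    (h : ∀ i j, i < j → (∀ t < k, s (i + t) = s (j + t)) → j + k < N → s (i + k) = s (j + k)) :
    Generates s N k := by
  classical
  refine ⟨fun w => if hw : ∃ i, i + k < N ∧ (fun t : Fin k => s (i + t)) = w then
    s (hw.choose + k) else false, fun i hi => ?_⟩
  have hw : ∃ i', i' + k < N ∧ (fun t : Fin k => s (i' + t)) = (fun t : Fin k => s (i + t)) :=
    ⟨i, hi, rfl⟩
  simp only [dif_pos hw]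
  obtain ⟨h1, h2⟩ := hw.choose_spec
  have h3 : ∀ t < k, s (hw.choose + t) = s (i + t) := fun t ht => congrFun h2 ⟨t, ht⟩
  rcases Nat.lt_trichotomy i hw.choose with h4 | h4 | h4
  · exact h i _ h4 (fun t ht => (h3 t ht).symm) h1
  · rw [← h4]
  · exact (h _ i h4 h3 hi).symm

theorem maxOrder_eq {m N : ℕ} (hm : 2 ≤ m) (h1 : fib m + fib (m + 2) < N)
    (h2 : N ≤ fib (m + 1) + fib (m + 3)) : maxOrder sZ N = KK m := by
  unfold maxOrder
  apply le_antisymm
  · apply Nat.sInf_le
    exact generates_of fun i j hij hw hlt => no_event hm hij hw (by omega)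
  · apply le_csInf
    · exact ⟨KK m, generates_of fun i j hij hw hlt => no_event hm hij hw (by omega)⟩
    · rintro k ⟨f, hf⟩
      by_contra hlt
      push Not at hlt
      obtain ⟨i, j, hij, hj, hw, hne⟩ := the_event hm
      obtain ⟨c, hc⟩ : ∃ c, KK m - 1 = c + k := ⟨KK m - 1 - k, by omega⟩
      rw [hc] at hne hw hj
      have e1 := hf (i + c) (by omega)
      have e2 := hf (j + c) (by omega)
      have e3 : (fun t : Fin k => sZ (i + c + t)) = (fun t : Fin k => sZ (j + c + t)) := by
        funext t
        have := hw (c + t) (by have := t.2; omega)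
        rw [← Nat.add_assoc, ← Nat.add_assoc] at this
        exact this
      rw [e3, ← e2] at e1
      rw [← Nat.add_assoc, ← Nat.add_assoc] at hne
      exact hne e1

theorem exists_block {N : ℕ} (hN : 5 ≤ N) :
    ∃ m, 2 ≤ m ∧ fib m + fib (m + 2) < N ∧ N ≤ fib (m + 1) + fib (m + 3) := by
  induction N, hN using Nat.le_induction with
  | base => exact ⟨2, le_rfl, by decide, by decide⟩
  | succ N _ ih =>
    obtain ⟨m, hm, h1, h2⟩ := ih
    rcases Nat.lt_or_ge N (fib (m + 1) + fib (m + 3)) with h | h
    · exact ⟨m, hm, by omega, by omega⟩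
    · refine ⟨m + 1, by omega, ?_, ?_⟩
      · rw [show m + 1 + 2 = m + 3 by omega]
        omega
      · have h3 : fib (m + 1) ≤ fib (m + 2) := fib_mono (by omega)
        have h4 : fib (m + 3) < fib (m + 4) := fib_lt_fib_succ (by omega)
        rw [show m + 1 + 1 = m + 2 by omega, show m + 1 + 3 = m + 4 by omega]
        omega

end Pool.Agent.MP_b74c76_co
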