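import Pool.Agent.MP_b74c76_co.Classify

set_option autoImplicit false

/-!
# Repeats of the parity sequence
-/

namespace Pool.Agent.MP_b74c76_co

open Nat

/-- The exact value of the maximum order complexity on `(L_(m+1), L_(m+2)]`. -/
def KK (m : ℕ) : ℕ := fib m + 1 + (if Even m then 1 else 0)

theorem left_ext {α : Type} (g : ℕ → α) (d e u : ℕ)
    (h : ∀ t, u ≤ t → t < e → g t = g (t + d)) :
    ∃ v ≤ u, (∀ t, v ≤ t → t < e → g t = g (t + d)) ∧ (v = 0 ∨ g (v - 1) ≠ g (v - 1 + d)) := by
  induction u with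
  | zero => exact ⟨0, le_rfl, h, Or.inl rfl⟩
  | succ u ih =>
    by_cases hu : g u = g (u + d)
    · obtain ⟨v, hv, h1, h2⟩ := ih (by
        intro t ht1 ht2
        rcases Nat.eq_or_lt_of_le ht1 with h3 | h3
        · rw [← h3]; exact hu
        · exact h t h3 ht2)
      exact ⟨v, by omega, h1, h2⟩
    · exact ⟨u + 1, le_rfl, h, Or.inr (by simpa using hu)⟩

theorem pred1 {a : ℕ} (ha : 1 ≤ a) : sZ (fib (a + 2) - 1) = !sZ (fib a - 1) := by
  have h1 : 0 < fib a := fib_pos.2 ha
  have h2 : fib (a + 2) = fib a + fib (a + 1) := fib_add_two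
  rw [show fib (a + 2) - 1 = fib (a + 1) + (fib a - 1) by omega]
  exact s_add ha (by omega)

theorem pred2 {a : ℕ} (ha : 3 ≤ a) : sZ (fib (a + 2) - 2) = !sZ (fib a - 2) := by
  have h1 : 2 ≤ fib a := by
    calc 2 = fib 3 := by decide
      _ ≤ fib a := fib_mono ha
  have h2 : fib (a + 2) = fib a + fib (a + 1) := fib_add_two
  rw [show fib (a + 2) - 2 = fib (a + 1) + (fib a - 2) by omega]
  exact s_add (by omega) (by omega)

theorem predA (c : ℕ) : sZ (fib (2 * c + 2) - 1) ≠ sZ (fib (2 * c + 3) - 1) := by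
  induction c with
  | zero =>
    have e1 : fib (2 * 0 + 2) - 1 = 0 := by decide
    have e2 : fib (2 * 0 + 3) - 1 = 1 := by decide
    rw [e1, e2, s_zero, s_one]
    decide
  | succ c ih =>
    rw [show 2 * (c + 1) + 2 = (2 * c + 2) + 2 by omega, show 2 * (c + 1) + 3 = (2 * c + 3) + 2 by omega,
      pred1 (a := 2 * c + 2) (by omega), pred1 (a := 2 * c + 3) (by omega)]
    intro h
    exact ih (Bool.not_inj h)

theorem predB (c : ℕ) : sZ (fib (2 * c + 3) - 1) = sZ (fib (2 * c + 4) - 1) := by
  induction c with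
  | zero =>
    have e1 : fib (2 * 0 + 3) - 1 = 1 := by decide
    have e2 : fib (2 * 0 + 4) - 1 = fib (2 + 1) := by decide
    rw [e1, e2, s_one, s_fib (by omega)]
  | succ c ih =>
    rw [show 2 * (c + 1) + 3 = (2 * c + 3) + 2 by omega, show 2 * (c + 1) + 4 = (2 * c + 4) + 2 by omega,
      pred1 (a := 2 * c + 3) (by omega), pred1 (a := 2 * c + 4) (by omega), ih]

theorem predC (c : ℕ) : sZ (fib (2 * c + 3) - 2) ≠ sZ (fib (2 * c + 4) - 2) := by
  induction c with
  | zero =>
    have e1 : fib (2 * 0 + 3) - 2 = 0 := by decide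
    have e2 : fib (2 * 0 + 4) - 2 = 1 := by decide
    rw [e1, e2, s_zero, s_one]
    decide
  | succ c ih =>
    rw [show 2 * (c + 1) + 3 = (2 * c + 3) + 2 by omega, show 2 * (c + 1) + 4 = (2 * c + 4) + 2 by omega,
      pred2 (a := 2 * c + 3) (by omega), pred2 (a := 2 * c + 4) (by omega)]
    intro h
    exact ih (Bool.not_inj h)

theorem TT_lt (m : ℕ) : TT m < (fib m : ℝ) - 3 := by
  unfold TT
  rw [Real.coe_fib_eq]
  have h5 : (0 : ℝ) < √5 := by positivity
  have h6 : √5 < (2.2362 : ℝ) := by
    rw [Real.sqrt_lt' (by norm_num)]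
    norm_num
  have h6' : (2.236 : ℝ) < √5 := by
    apply Real.lt_sqrt_of_sq_lt
    norm_num
  have h7 : |Real.goldenConj ^ m| ≤ 1 := by
    rw [abs_pow]
    apply pow_le_one₀ (abs_nonneg _)
    rw [abs_of_neg Real.goldenConj_neg]
    exact gr_lt_one.le
  have h8 := (abs_le.1 h7).2
  have h9 : (1 : ℝ) ≤ Real.goldenRatio ^ m := one_le_pow₀ Real.one_lt_goldenRatio.le
  have h10 : (48 / 125 * Real.goldenRatio ^ m - 2) * √5 < Real.goldenRatio ^ m - 1 := by
    nlinarith
  have h11 : 48 / 125 * Real.goldenRatio ^ m - 2 <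
      (Real.goldenRatio ^ m - Real.goldenConj ^ m) / √5 := by
    rw [lt_div_iff₀ h5]
    linarith
  linarith

theorem no_event_large {m : ℕ} (hm : 8 ≤ m) {i j : ℕ} (hij : i < j)
    (hw : ∀ t < KK m, sZ (i + t) = sZ (j + t)) (hlt : j + KK m < fib (m + 1) + fib (m + 3)) :
    sZ (i + KK m) = sZ (j + KK m) := by
  by_contra hne
  obtain ⟨d, hd⟩ : ∃ d, j = i + d := ⟨j - i, by omega⟩
  subst hd
  have hfm : 21 ≤ fib m := by
    calc 21 = fib 8 := by decide
      _ ≤ fib m := fib_mono hm
  have hK : KK m = fib m + 1 + (if Even m then 1 else 0) := rfl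
  set K := KK m with hKdef
  set e := (if Even m then 1 else 0) with he
  have he1 : e ≤ 1 := by rw [he]; split <;> omega
  obtain ⟨v, hv, hv1, hv2⟩ := left_ext xZ d (i + K) (i + 4) (by
    intro t ht1 ht2
    rw [x_eq_iff]
    constructor
    · have := hw (t - i) (by omega)
      rw [show i + (t - i) = t by omega, show i + d + (t - i) = t + d by omega] at this
      exact this
    · have := recog (t - 4) (t - 4 + d) (by
        intro t' ht'
        have := hw (t - 4 + t' - i) (by omega)
        rw [show i + (t - 4 + t' - i) = t - 4 + t' by omega,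
          show i + d + (t - 4 + t' - i) = t - 4 + d + t' by omega] at this
        exact this)
      rw [show t - 4 + 4 = t by omega, show t - 4 + d + 4 = t + d by omega] at this
      exact this)
  obtain ⟨k1, hk1⟩ : ∃ k1, v + k1 = i + K := ⟨i + K - v, by omega⟩
  have hc := classify hm v (v + d) k1 (by omega) ((win_eq_iff _ _ _).2 (by
    intro t ht
    have := hv1 (v + t) (by omega) (by omega)
    rw [show v + d + t = v + t + d by omega]
    exact this)) (by
      rw [show v + d + k1 = i + d + K by omega, hk1]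
      intro h
      rw [x_eq_iff] at h
      exact hne h.1) (by
      rcases hv2 with h | h
      · exact Or.inl h
      · by_cases h0 : v = 0
        · exact Or.inl h0
        · right
          rw [show v + d - 1 = v - 1 + d by omega]
          exact h) (by omega)
  rcases hc with ⟨hk, hc⟩ | hc
  · have hvi : v = i + 1 + e := by omega
    have hs1 : sZ (v - 1) = sZ (v - 1 + d) := by
      have := hw e (by omega)
      rw [show i + e = v - 1 by omega, show i + d + e = v - 1 + d by omega] at this
      exact this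
    rcases hc with ⟨c1, c2⟩ | ⟨c1, c2⟩ | ⟨c1, c2⟩
    · have hfp : 0 < fib (m + 1) := fib_pos.2 (by omega)
      rw [show v - 1 + d = (v + d) - 1 by omega, c2, c1] at hs1
      by_cases hev : Even m
      · obtain ⟨c, hc⟩ := hev
        have hm2 : m = 2 * (c - 1) + 2 := by omega
        have he2 : e = 1 := by rw [he, if_pos ⟨c, hc⟩]
        have hs2 := hw 0 (by omega)
        rw [Nat.add_zero, Nat.add_zero, show i = v - 2 by omega,
          show v - 2 + d = (v + d) - 2 by omega, c2, c1] at hs2
        have := predC (c - 1)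
        rw [show 2 * (c - 1) + 3 = m + 1 by omega, show 2 * (c - 1) + 4 = m + 2 by omega] at this
        exact this hs2
      · rw [Nat.not_even_iff_odd] at hev
        obtain ⟨c, hc⟩ := hev
        have := predA c
        rw [show 2 * c + 2 = m + 1 by omega, show 2 * c + 3 = m + 2 by omega] at this
        exact this hs1
    · have hfp : 0 < fib (m + 1) := fib_pos.2 (by omega)
      rw [show v - 1 + d = (v + d) - 1 by omega, c2, c1] at hs1
      have := pred1 (a := m + 1) (by omega)
      rw [show m + 1 + 2 = m + 3 by omega, ← hs1] at this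
      exact absurd this (by cases sZ (fib (m + 1) - 1) <;> decide)
    · omega
  · have h1 := TT_lt m
    have h2 : (fib m : ℝ) ≤ k1 + 3 := by
      have : fib m ≤ k1 + 3 := by omega
      exact_mod_cast this
    linarith

theorem no_event_small {m : ℕ} (hm : 2 ≤ m) (hm2 : m ≤ 7) {i j : ℕ} (hij : i < j)
    (hw : ∀ t < KK m, sZ (i + t) = sZ (j + t)) (hlt : j + KK m < fib (m + 1) + fib (m + 3)) :
    sZ (i + KK m) = sZ (j + KK m) := by
  by_contra hne
  obtain ⟨d, hd⟩ : ∃ d, j = i + d := ⟨j - i, by omega⟩
  subst hd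
  have hL : fib (m + 1) + fib (m + 3) ≤ 76 := by
    calc fib (m + 1) + fib (m + 3) ≤ fib (7 + 1) + fib (7 + 3) :=
          Nat.add_le_add (fib_mono (by omega)) (fib_mono (by omega))
      _ = 76 := by decide
  obtain ⟨v, hv, hv1, hv2⟩ := left_ext sZ d (i + KK m) i (by
    intro t ht1 ht2
    have := hw (t - i) (by omega)
    rw [show i + (t - i) = t by omega, show i + d + (t - i) = t + d by omega] at this
    exact this)
  obtain ⟨k1, hk1⟩ : ∃ k1, v + k1 = i + KK m := ⟨i + KK m - v, by omega⟩
  have hs := scanS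
  rw [List.all_eq_true] at hs
  have hs2 := hs (d - 1) (by rw [List.mem_range]; omega)
  rw [show d - 1 + 1 = d by omega, W144_eq, win_take _ _ _ (by omega), ← List.map_drop,
    win_drop _ _ _ (by omega), ← gw_s, ← gw_s] at hs2
  have key := scan_spec sZ (okS d) d d (76 - d) 0 0 le_rfl (fun t h1 h2 => by omega)
    (Or.inl rfl) (by rw [show 76 - d + d = 76 by omega]; exact hs2) v k1 hv2 (by
      intro t ht
      exact hv1 (v + t) (by omega) (by omega)) (by
      rw [hk1, show i + KK m + d = i + d + KK m by omega]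
      exact hne) (Nat.zero_le _) (by omega)
  unfold okS at key
  simp only [Bool.or_eq_true, Bool.and_eq_true, decide_eq_true_eq] at key
  have hq : v + d + k1 = i + d + KK m := by omega
  rw [hq] at key
  have hkk : KK m ≤ k1 := by omega
  clear hs2 hs hv1 hv2 hw hne
  interval_cases m
  · have e1 : KK 2 = 3 := by decide
    have e2 : fib (2 + 1) + fib (2 + 3) = 7 := by decide
    rw [e1] at hkk hlt key
    rw [e2] at hlt
    omega
  · have e1 : KK 3 = 3 := by decide
    have e2 : fib (3 + 1) + fib (3 + 3) = 11 := by decide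
    rw [e1] at hkk hlt key
    rw [e2] at hlt
    omega
  · have e1 : KK 4 = 5 := by decide
    have e2 : fib (4 + 1) + fib (4 + 3) = 18 := by decide
    rw [e1] at hkk hlt key
    rw [e2] at hlt
    omega
  · have e1 : KK 5 = 6 := by decide
    have e2 : fib (5 + 1) + fib (5 + 3) = 29 := by decide
    rw [e1] at hkk hlt key
    rw [e2] at hlt
    omega
  · have e1 : KK 6 = 10 := by decide
    have e2 : fib (6 + 1) + fib (6 + 3) = 47 := by decide
    rw [e1] at hkk hlt key
    rw [e2] at hlt
    omega
  · have e1 : KK 7 = 14 := by decide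
    have e2 : fib (7 + 1) + fib (7 + 3) = 76 := by decide
    rw [e1] at hkk hlt key
    rw [e2] at hlt
    omega

theorem no_event {m : ℕ} (hm : 2 ≤ m) {i j : ℕ} (hij : i < j)
    (hw : ∀ t < KK m, sZ (i + t) = sZ (j + t)) (hlt : j + KK m < fib (m + 1) + fib (m + 3)) :
    sZ (i + KK m) = sZ (j + KK m) := by
  rcases Nat.lt_or_ge m 8 with h | h
  · exact no_event_small hm (by omega) hij hw hlt
  · exact no_event_large h hij hw hlt

/-- The longest repeat. -/
theorem the_event {m : ℕ} (hm : 2 ≤ m) : ∃ i j, i < j ∧ j + (KK m - 1) = fib m + fib (m + 2) ∧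
    (∀ t < KK m - 1, sZ (i + t) = sZ (j + t)) ∧ sZ (i + (KK m - 1)) ≠ sZ (j + (KK m - 1)) := by
  have f2 : fib (m + 2) = fib m + fib (m + 1) := fib_add_two
  have fm : 0 < fib m := fib_pos.2 (by omega)
  have base : ∀ t < fib m, sZ (fib (m + 1) + t) = sZ (fib (m + 2) + t) := by
    intro t ht
    have h1 : fib m ≤ fib (m + 1) := fib_mono (by omega)
    rw [s_add (b := m) (by omega) ht, s_add (b := m + 1) (by omega) (by omega)]
  have fin : sZ (fib (m + 1) + fib m) ≠ sZ (fib (m + 2) + fib m) := by
    rw [s_crit1 hm, Nat.add_comm, ← f2, s_fib (b := m + 1) (by omega)]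
    decide
  by_cases hev : Even m
  · have hK : KK m - 1 = fib m + 1 := by
      unfold KK; rw [if_pos hev]; omega
    have hf1 : 0 < fib (m + 1) := fib_pos.2 (by omega)
    refine ⟨fib (m + 1) - 1, fib (m + 2) - 1, by omega, by omega, ?_, ?_⟩
    · intro t ht
      rcases Nat.eq_zero_or_pos t with h | h
      · subst h
        obtain ⟨c, hc⟩ := hev
        have := predB (c - 1)
        rw [show 2 * (c - 1) + 3 = m + 1 by omega, show 2 * (c - 1) + 4 = m + 2 by omega] at this
        exact this
      · have := base (t - 1) (by omega)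
        rw [show fib (m + 1) + (t - 1) = fib (m + 1) - 1 + t by omega,
          show fib (m + 2) + (t - 1) = fib (m + 2) - 1 + t by omega] at this
        exact this
    · rw [hK, show fib (m + 1) - 1 + (fib m + 1) = fib (m + 1) + fib m by omega,
        show fib (m + 2) - 1 + (fib m + 1) = fib (m + 2) + fib m by omega]
      exact fin
  · have hK : KK m - 1 = fib m := by
      unfold KK; rw [if_neg hev]; omega
    rw [hK]
    exact ⟨fib (m + 1), fib (m + 2), by omega, by omega, base, fin⟩

end Pool.Agent.MP_b74c76_co
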