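import Pool.Agent.MP_b74c76_co.Window

set_option autoImplicit false

/-!
# A one-pass check of all maximal repeats with a given shift
-/

namespace Pool.Agent.MP_b74c76_co

/-- The word of length `r` at position `i` of the sequence `g`. -/
def gw {α : Type} (g : ℕ → α) (i : ℕ) : ℕ → List α
  | 0 => []
  | r + 1 => g i :: gw g (i + 1) r

theorem gw_x (i r : ℕ) : gw xZ i r = win i r := by
  induction r generalizing i with
  | zero => rfl
  | succ r ih => simp [gw, win, ih]

theorem gw_s (i r : ℕ) : gw sZ i r = (win i r).map (fun c => decide (2 ≤ c)) := by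
  induction r generalizing i with
  | zero => rfl
  | succ r ih =>
    simp only [gw, win, List.map_cons]
    rw [ih, ← s_of_x]

/-- Run through two words in parallel and test every maximal run of agreement. -/
def scan {α : Type} [DecidableEq α] (ok : ℕ → ℕ → Bool) :
    List α → List α → ℕ → ℕ → Bool
  | a :: u, b :: v, i, run =>
    if a = b then scan ok u v (i + 1) (run + 1)
    else ok (i - run) run && scan ok u v (i + 1) 0
  | _, _, _, _ => true

theorem scan_spec {α : Type} [DecidableEq α] (g : ℕ → α) (ok : ℕ → ℕ → Bool) (d e : ℕ) :
    ∀ (r i run : ℕ), run ≤ i → (∀ t, i - run ≤ t → t < i → g t = g (t + d)) →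
    (i - run = 0 ∨ g (i - run - 1) ≠ g (i - run - 1 + d)) →
    scan ok (gw g i (r + e)) (gw g (i + d) r) i run = true →
    ∀ i1 k1 : ℕ, (i1 = 0 ∨ g (i1 - 1) ≠ g (i1 - 1 + d)) →
      (∀ t < k1, g (i1 + t) = g (i1 + t + d)) → g (i1 + k1) ≠ g (i1 + k1 + d) →
      i ≤ i1 + k1 → i1 + k1 < i + r → ok i1 k1 = true := by
  intro r
  induction r with
  | zero =>
    intro i run _ _ _ _ i1 k1 _ _ _ h1 h2
    omega
  | succ r ih =>
    intro i run hrun hag hlm hscan i1 k1 hlm1 hag1 hne1 h1 h2
    rw [show r + 1 + e = (r + e) + 1 by omega] at hscan
    simp only [gw, scan] at hscan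
    by_cases hg : g i = g (i + d)
    · rw [if_pos hg] at hscan
      have hne : i1 + k1 ≠ i := by
        intro h
        rw [h] at hne1
        exact hne1 hg
      refine ih (i + 1) (run + 1) (by omega) ?_ ?_ ?_ i1 k1 hlm1 hag1 hne1 (by omega) (by omega)
      · intro t ht1 ht2
        rcases Nat.lt_or_ge t i with h | h
        · exact hag t (by omega) h
        · have : t = i := by omega
          rw [this]
          exact hg
      · rw [show i + 1 - (run + 1) = i - run by omega]
        exact hlm
      · rw [show i + 1 + d = i + d + 1 by omega]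
        exact hscan
    · rw [if_neg hg, Bool.and_eq_true] at hscan
      rcases Nat.eq_or_lt_of_le h1 with h | h
      · have hi1 : i1 = i - run := by
          rcases Nat.lt_trichotomy i1 (i - run) with h3 | h3 | h3
          · exfalso
            rcases hlm with h4 | h4
            · omega
            · apply h4
              have := hag1 (i - run - 1 - i1) (by omega)
              rw [show i1 + (i - run - 1 - i1) = i - run - 1 by omega] at this
              exact this
          · exact h3
          · exfalso
            rcases hlm1 with h4 | h4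
            · omega
            · exact h4 (hag (i1 - 1) (by omega) (by omega))
        have hk1 : k1 = run := by omega
        rw [hi1, hk1]
        exact hscan.1
      · refine ih (i + 1) 0 (by omega) ?_ ?_ ?_ i1 k1 hlm1 hag1 hne1 (by omega) (by omega)
        · intro t ht1 ht2
          omega
        · right
          rw [show i + 1 - 0 - 1 = i by omega]
          exact hg
        · rw [show i + 1 + d = i + d + 1 by omega]
          exact hscan.2

/-- The prefix of length 144. -/
def W144 : List ℕ := (fun w : List ℕ => w.flatMap sig)^[10] [0]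

theorem win_zero_fib (n : ℕ) :
    win 0 (Nat.fib (n + 2)) = (fun w : List ℕ => w.flatMap sig)^[n] [0] := by
  induction n with
  | zero =>
    have h : xZ 0 = 0 := by unfold xZ; rw [s_zero, l_zero]; rfl
    simp [win, h]
  | succ n ih =>
    rw [Function.iterate_succ', Function.comp_apply, ← ih]
    rw [image, p_zero, Nat.zero_add, Nat.sub_zero, p_fib (b := n + 1) (by omega)]

theorem W144_eq : W144 = win 0 144 := (win_zero_fib 10).symm

/-- The three families of longest repeats. -/
def Crit (m i j k : ℕ) : Prop :=
  k = Nat.fib m ∧ ((i = Nat.fib (m + 1) ∧ j = Nat.fib (m + 2)) ∨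
    (i = Nat.fib (m + 1) ∧ j = Nat.fib (m + 3)) ∨ (i = 0 ∧ j = Nat.fib m + Nat.fib (m + 2)))

/-- The test for the letter sequence (`m = 8`). -/
def ok8 (d i k : ℕ) : Bool :=
  decide (k ≤ 13) || (decide (k = 21) && ((decide (i = 34) && decide (i + d = 55)) ||
    (decide (i = 34) && decide (i + d = 89)) || (decide (i = 0) && decide (i + d = 76))))

/-- The test for the parity sequence (small `m`). -/
def okS (d i k : ℕ) : Bool :=
  (decide (7 ≤ i + d + k) || decide (k < 3)) && (decide (11 ≤ i + d + k) || decide (k < 3)) &&
  (decide (18 ≤ i + d + k) || decide (k < 5)) && (decide (29 ≤ i + d + k) || decide (k < 6)) &&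
  (decide (47 ≤ i + d + k) || decide (k < 10)) && (decide (76 ≤ i + d + k) || decide (k < 14))

theorem scan8 : (List.range 122).all (fun d =>
    scan (ok8 (d + 1)) (W144.take 123) ((W144.take 123).drop (d + 1)) 0 0) = true := by
  decide +kernel

theorem scanS : (List.range 75).all (fun d =>
    scan (okS (d + 1)) ((W144.take 76).map (fun c => decide (2 ≤ c)))
      (((W144.take 76).map (fun c => decide (2 ≤ c))).drop (d + 1)) 0 0) = true := by
  decide +kernel

end Pool.Agent.MP_b74c76_co
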