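import Pool.Agent.MP_b74c76_co.Base

set_option autoImplicit false

/-!
# The coding by four letters, and recognizability
-/

namespace Pool.Agent.MP_b74c76_co

open Nat

/-- The letter at position `n`: `0` for `a`, `3` for `b`, `2` for `c`, `1` for `d`. -/
def xZ (n : ℕ) : ℕ := (if sZ n then 2 else 0) + (if lZ n then 1 else 0)

theorem x_eq_iff (m n : ℕ) : xZ m = xZ n ↔ sZ m = sZ n ∧ lZ m = lZ n := by
  unfold xZ
  cases sZ m <;> cases sZ n <;> cases lZ m <;> cases lZ n <;> simp

theorem x_lt (n : ℕ) : xZ n < 4 := by
  unfold xZ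
  cases sZ n <;> cases lZ n <;> simp

theorem s_of_x (n : ℕ) : sZ n = decide (2 ≤ xZ n) := by
  unfold xZ
  cases sZ n <;> cases lZ n <;> simp

theorem l_of_x (n : ℕ) : lZ n = decide (xZ n % 2 = 1) := by
  unfold xZ
  cases sZ n <;> cases lZ n <;> simp

/-- The morphism. -/
def sig : ℕ → List ℕ
  | 0 => [0, 3]
  | 1 => [0]
  | 2 => [2, 1]
  | _ => [2]

/-- The word of length `r` at position `i`. -/
def win (i : ℕ) : ℕ → List ℕ
  | 0 => []
  | r + 1 => xZ i :: win (i + 1) r

theorem win_length (i r : ℕ) : (win i r).length = r := by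
  induction r generalizing i with
  | zero => rfl
  | succ r ih => simp [win, ih]

theorem win_add (i r t : ℕ) : win i (r + t) = win i r ++ win (i + r) t := by
  induction r generalizing i with
  | zero => simp [win]
  | succ r ih =>
    rw [show r + 1 + t = (r + t) + 1 by omega]
    simp only [win, List.cons_append]
    rw [ih, show i + (r + 1) = i + 1 + r by omega]

theorem win_take (i r t : ℕ) (h : t ≤ r) : (win i r).take t = win i t := by
  obtain ⟨d, rfl⟩ := Nat.exists_eq_add_of_le h
  rw [win_add, List.take_left' (win_length i t)]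

theorem win_drop (i r t : ℕ) (h : t ≤ r) : (win i r).drop t = win (i + t) (r - t) := by
  obtain ⟨d, rfl⟩ := Nat.exists_eq_add_of_le h
  rw [win_add, List.drop_left' (win_length i t), Nat.add_sub_cancel_left]

theorem sig_x (i : ℕ) : sig (xZ i) = win (pZ i) (pZ (i + 1) - pZ i) := by
  obtain ⟨h1, h2, h3⟩ := x_p i
  rw [p_succ, Nat.add_sub_cancel_left]
  cases hl : lZ i with
  | false =>
    obtain ⟨h4, h5⟩ := h3 hl
    simp only [win, Bool.false_eq_true, if_false]
    have e1 : xZ (pZ i) = if sZ i then 2 else 0 := by
      unfold xZ; rw [h1, h2]; simp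
    have e2 : xZ (pZ i + 1) = if sZ i then 1 else 3 := by
      unfold xZ; rw [h4, h5]; cases sZ i <;> simp
    have e3 : xZ i = if sZ i then 2 else 0 := by
      unfold xZ; rw [hl]; simp
    rw [e1, e2, e3]
    cases sZ i <;> simp [sig]
  | true =>
    simp only [win, if_true]
    have e1 : xZ (pZ i) = if sZ i then 2 else 0 := by
      unfold xZ; rw [h1, h2]; simp
    have e3 : xZ i = if sZ i then 3 else 1 := by
      unfold xZ; rw [hl]; cases sZ i <;> simp
    rw [e1, e3]
    cases sZ i <;> simp [sig]

theorem image (i r : ℕ) : (win i r).flatMap sig = win (pZ i) (pZ (i + r) - pZ i) := by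
  induction r generalizing i with
  | zero => simp [win]
  | succ r ih =>
    simp only [win, List.flatMap_cons]
    rw [ih, sig_x]
    have h1 : pZ i < pZ (i + 1) := p_strictMono (by omega)
    have h2 : pZ (i + 1) ≤ pZ (i + 1 + r) := p_strictMono.monotone (by omega)
    have h3 : pZ (i + (r + 1)) - pZ i = (pZ (i + 1) - pZ i) + (pZ (i + 1 + r) - pZ (i + 1)) := by
      rw [show i + (r + 1) = i + 1 + r by omega]
      omega
    rw [h3, win_add, show pZ i + (pZ (i + 1) - pZ i) = pZ (i + 1) by omega]

/-- All factors of length five. -/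
def T5 : List (List ℕ) :=
  [[0, 3, 2, 2, 1], [3, 2, 2, 1, 2], [2, 2, 1, 2, 1], [2, 1, 2, 1, 0], [1, 2, 1, 0, 2],
  [2, 1, 0, 2, 1], [1, 0, 2, 1, 0], [0, 2, 1, 0, 0], [2, 1, 0, 0, 3], [1, 0, 0, 3, 2],
  [0, 0, 3, 2, 1], [0, 3, 2, 1, 0], [3, 2, 1, 0, 0], [1, 0, 0, 3, 0], [0, 0, 3, 0, 3],
  [0, 3, 0, 3, 2], [3, 0, 3, 2, 2], [3, 2, 2, 1, 0], [2, 2, 1, 0, 0], [3, 0, 3, 2, 0],
  [0, 3, 2, 0, 3], [3, 2, 0, 3, 2], [2, 0, 3, 2, 2], [1, 2, 1, 0, 0], [2, 2, 1, 0, 3],
  [2, 1, 0, 3, 2], [1, 0, 3, 2, 2], [0, 0, 3, 2, 2]]

theorem T5_closed : ∀ w ∈ T5, 6 ≤ (w.flatMap sig).length ∧ (w.flatMap sig).take 5 ∈ T5 ∧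
    (w.headD 1 % 2 = 0 → ((w.flatMap sig).drop 1).take 5 ∈ T5) := by decide

/-- Parity words of length five whose last letter has last digit one. -/
def DL : List (List Bool) :=
  [[false, false, true, false, true], [false, false, true, true, false],
  [false, true, true, false, true], [false, true, true, true, false],
  [true, false, false, false, true], [true, false, false, true, false],
  [true, true, false, false, true], [true, true, false, true, false]]

theorem T5_recog : ∀ w ∈ T5, decide (w.getLastD 0 % 2 = 1) =
    decide (w.map (fun c => decide (2 ≤ c)) ∈ DL) := by decide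

theorem win_zero_five : win 0 5 = [0, 3, 2, 2, 1] := by
  have hx : ∀ n, xZ n = (if sZ n then 2 else 0) + (if lZ n then 1 else 0) := fun n => rfl
  have s2 : sZ 2 = true := s_fib (b := 2) (by omega)
  have l2 : lZ 2 = false := by
    have := l_add (b := 2) (m := 0) (by omega) (by decide)
    rw [l_zero] at this
    exact this
  have s3 : sZ 3 = true := s_fib (b := 3) (by omega)
  have l3 : lZ 3 = false := by
    have := l_add (b := 3) (m := 0) (by omega) (by decide)
    rw [l_zero] at this
    exact this
  have s4 : sZ 4 = false := by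
    have := s_add (b := 3) (m := 1) (by omega) (by decide)
    rw [s_one] at this
    exact this
  have l4 : lZ 4 = true := by
    have := l_add (b := 3) (m := 1) (by omega) (by decide)
    rw [l_one] at this
    exact this
  simp only [win, hx, Nat.zero_add, Nat.reduceAdd]
  rw [s_zero, l_zero, s_one, l_one, s2, l2, s3, l3, s4, l4]
  rfl

theorem win_mem (i : ℕ) : win i 5 ∈ T5 := by
  induction i using Nat.strong_induction_on with
  | _ i ih =>
    rcases Nat.eq_zero_or_pos i with h0 | h0
    · subst h0
      rw [win_zero_five]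
      decide
    · obtain ⟨n, hn⟩ := p_surj i
      have hni : n < i := by
        rcases hn with hn | ⟨_, hn⟩
        · have h1 : n ≤ pZ n := p_strictMono.id_le n
          rcases Nat.eq_zero_or_pos n with h2 | h2
          · omega
          · have h3 : pZ 1 + (n - 1) ≤ pZ n := by
              obtain ⟨c, rfl⟩ : ∃ c, n = c + 1 := ⟨n - 1, by omega⟩
              clear hn h1 h2
              induction c with
              | zero => simp
              | succ c ihc =>
                have := p_strictMono (show c + 1 < c + 1 + 1 by omega)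
                omega
            have h4 : pZ 1 = 2 := p_fib (b := 1) (by omega)
            omega
        · have h1 : n ≤ pZ n := p_strictMono.id_le n
          omega
      obtain ⟨c1, c2, c3⟩ := T5_closed _ (ih n hni)
      rw [image, win_length] at c1
      rw [image] at c2 c3
      rcases hn with hn | ⟨hl, hn⟩
      · rw [win_take _ _ _ (by omega)] at c2
        rw [hn]
        exact c2
      · rw [win_drop _ _ _ (by omega), win_take _ _ _ (by omega)] at c3
        rw [hn]
        apply c3
        simp only [win, List.headD_cons]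
        have h5 := l_of_x n
        rw [hl] at h5
        have h6 : ¬ xZ n % 2 = 1 := by simpa using h5.symm
        omega

theorem win_map_s (i r : ℕ) : (win i r).map (fun c => decide (2 ≤ c)) =
    (List.range r).map (fun t => sZ (i + t)) := by
  induction r generalizing i with
  | zero => simp [win]
  | succ r ih =>
    rw [List.range_succ_eq_map]
    simp only [win, List.map_cons, List.map_map, Nat.add_zero]
    rw [ih, ← s_of_x]
    congr 1
    apply List.map_congr_left
    intro t _
    simp only [Function.comp_apply]
    rw [show i + t.succ = i + 1 + t by omega]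

/-- The last digit can be read off from five consecutive parities. -/
theorem recog (i j : ℕ) (h : ∀ t < 5, sZ (i + t) = sZ (j + t)) : lZ (i + 4) = lZ (j + 4) := by
  have key : ∀ i : ℕ, lZ (i + 4) =
      decide ((List.range 5).map (fun t => sZ (i + t)) ∈ DL) := by
    intro i
    have h1 := T5_recog _ (win_mem i)
    rw [win_map_s] at h1
    rw [← h1, l_of_x]
    rfl
  rw [key i, key j]
  have : (List.range 5).map (fun t => sZ (i + t)) = (List.range 5).map (fun t => sZ (j + t)) := by
    apply List.map_congr_left
    intro t ht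
    exact h t (by simpa using ht)
  rw [this]

end Pool.Agent.MP_b74c76_co
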