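import Pool.Agent.MP_b74c76_co.Asym

/-!
# MP_b74c76_co, Q1: the maximum order complexity of the Zeckendorf parity sequence

The exact value for all `N ≥ 5`, the limit superior and the limit inferior of `M(S_Z, N) / N`, and
hence the negative answer: the quotient has no limit.
-/

namespace Pool.Agent.MP_b74c76_co.ZeckendorfOrder

open Pool.Agent.MP_b74c76_co Filter Topology

/-- With `L_n` the Lucas numbers (`L_(m+1) = F_m + F_(m+2)`), `M(S_Z, N)` equals `F_m + 1` for odd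
`m` and `F_m + 2` for even `m` when `L_(m+1) < N ≤ L_(m+2)`, for all `m ≥ 2`. Hence
`M(S_Z, N) / N` has limit superior `1 / (1 + φ ^ 2)`, limit inferior `1 / (φ + φ ^ 3)`, and no
limit. -/
theorem result :
    (∀ m N : ℕ, 2 ≤ m → Nat.fib m + Nat.fib (m + 2) < N →
      N ≤ Nat.fib (m + 1) + Nat.fib (m + 3) →
      maxOrder sZ N = Nat.fib m + 1 + (if Even m then 1 else 0)) ∧
    limsup (fun N : ℕ => (maxOrder sZ N : ℝ) / N) atTop = 1 / (1 + Real.goldenRatio ^ 2) ∧
    liminf (fun N : ℕ => (maxOrder sZ N : ℝ) / N) atTop =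
      1 / (Real.goldenRatio + Real.goldenRatio ^ 3) ∧
    ¬ ∃ l : ℝ, Tendsto (fun N : ℕ => (maxOrder sZ N : ℝ) / N) atTop (𝓝 l) :=
  ⟨fun _ _ hm h1 h2 => maxOrder_eq hm h1 h2, limsup_aa, liminf_aa, not_tendsto_aa⟩

end Pool.Agent.MP_b74c76_co.ZeckendorfOrder
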